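import Mathlib
import Pool.Agent.R649.Cay

/-! The depth of the shadow of an element of length `n` can be as large as `n`. -/

namespace Pool.Agent.Results.MP_ea4c65_al.MaximalShadowDepth

open SimpleGraph Pool.Agent.R649

section defs

variable {G : Type} [Group G]

/-- The word length of `g` for the generating set `S`: the distance from `1` to `g` in the
Cayley graph (vertices the elements of `G`, edges between `h` and `h * s` for `s` in `S`). -/
noncomputable def wordLength (S : Finset G) (g : G) : ℕ := (mulCayley (S : Set G)).dist 1 g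

/-- There is a strictly increasing path to infinity from `x`: an infinite path in the Cayley graph
starting at `x`, along which the word length strictly increases. -/
def StraightToInfinity (S : Finset G) (x : G) : Prop :=
  ∃ π : ℕ → G, π 0 = x ∧ ∀ i, (mulCayley (S : Set G)).Adj (π i) (π (i + 1)) ∧
    wordLength S (π i) < wordLength S (π (i + 1))

/-- The vertex `y` lies on some geodesic from `1` to `x`. -/
def OnGeodesic (S : Finset G) (x y : G) : Prop :=
  ∃ p : (mulCayley (S : Set G)).Walk 1 x, p.length = wordLength S x ∧ y ∈ p.support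

/-- The depth of the shadow of `x`: the least `k` such that some vertex `y` of length `|x| - k`,
on some geodesic from `1` to `x`, is the start of a strictly increasing path to infinity. -/
noncomputable def shadowDepth (S : Finset G) (x : G) : ℕ :=
  sInf {k : ℕ | ∃ y : G, wordLength S y + k = wordLength S x ∧ StraightToInfinity S y ∧
    OnGeodesic S x y}

end defs

section example_

variable (N : ℕ) (d : ℕ)

/-- The group `ℤ × ℤ/N`, written multiplicatively. -/
abbrev Gr := Multiplicative (ℤ × ZMod N)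

/-- The generating set `{(1,0), (1,1), (0,d)}`. -/
def gens : Finset (Gr N) :=
  {Multiplicative.ofAdd (1, 0), Multiplicative.ofAdd (1, 1), Multiplicative.ofAdd (0, (d : ZMod N))}

variable {N d}

theorem mem_gens {s : Gr N} : s ∈ ((gens N d : Finset (Gr N)) : Set (Gr N)) ↔
    s = Multiplicative.ofAdd (1, 0) ∨ s = Multiplicative.ofAdd (1, 1) ∨
      s = Multiplicative.ofAdd (0, (d : ZMod N)) := by
  simp [gens]

/-- `g` is the value of a word with `p` letters `(1,*)`, `q` letters `(-1,*)`, `r` letters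
`(0, ± d)`, total length at most `l`. -/
def Rep (N d : ℕ) (l : ℕ) (g : Gr N) : Prop :=
  ∃ (p q r : ℕ) (u w : ℤ), p + q + r ≤ l ∧ u ≤ p ∧ -(q : ℤ) ≤ u ∧ w ≤ r ∧ -(r : ℤ) ≤ w ∧
    (Multiplicative.toAdd g).1 = (p : ℤ) - q ∧
    (Multiplicative.toAdd g).2 = ((u + d * w : ℤ) : ZMod N)

theorem rep_step (n : ℕ) (g s : Gr N) (h : Rep N d n g)
    (hs : s ∈ ((gens N d : Finset (Gr N)) : Set (Gr N)) ∨
      s⁻¹ ∈ ((gens N d : Finset (Gr N)) : Set (Gr N))) : Rep N d (n + 1) (g * s) := by
  obtain ⟨p, q, r, u, w, h1, h2, h3, h4, h5, h6, h7⟩ := h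
  rw [mem_gens, mem_gens] at hs
  rcases hs with (rfl | rfl | rfl) | (h | h | h)
  · refine ⟨p + 1, q, r, u, w, by omega, by push_cast; omega, h3, h4, h5, ?_, ?_⟩
    · rw [toAdd_mul, Prod.fst_add, h6]; simp; ring
    · rw [toAdd_mul, Prod.snd_add, h7]; simp
  · refine ⟨p + 1, q, r, u + 1, w, by omega, by push_cast; omega, by omega, h4, h5, ?_, ?_⟩
    · rw [toAdd_mul, Prod.fst_add, h6]; simp; ring
    · rw [toAdd_mul, Prod.snd_add, h7]; push_cast; simp; ring
  · refine ⟨p, q, r + 1, u, w + 1, by omega, h2, h3, by push_cast; omega, by push_cast; omega,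
      ?_, ?_⟩
    · rw [toAdd_mul, Prod.fst_add, h6]; simp
    · rw [toAdd_mul, Prod.snd_add, h7]; push_cast; simp; ring
  · obtain rfl : s = (Multiplicative.ofAdd (1, 0))⁻¹ := by rw [← h, inv_inv]
    refine ⟨p, q + 1, r, u, w, by omega, h2, by push_cast; omega, h4, h5, ?_, ?_⟩
    · rw [toAdd_mul, Prod.fst_add, h6]; simp; ring
    · rw [toAdd_mul, Prod.snd_add, h7]; simp
  · obtain rfl : s = (Multiplicative.ofAdd (1, 1))⁻¹ := by rw [← h, inv_inv]
    refine ⟨p, q + 1, r, u - 1, w, by omega, by omega, by push_cast; omega, h4, h5, ?_, ?_⟩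
    · rw [toAdd_mul, Prod.fst_add, h6]; simp; ring
    · rw [toAdd_mul, Prod.snd_add, h7]; push_cast; simp; ring
  · obtain rfl : s = (Multiplicative.ofAdd (0, (d : ZMod N)))⁻¹ := by rw [← h, inv_inv]
    refine ⟨p, q, r + 1, u, w - 1, by omega, h2, h3, by push_cast; omega, by push_cast; omega,
      ?_, ?_⟩
    · rw [toAdd_mul, Prod.fst_add, h6]; simp
    · rw [toAdd_mul, Prod.snd_add, h7]; push_cast; simp; ring

theorem rep_zero : Rep N d 0 1 := ⟨0, 0, 0, 0, 0, by simp⟩

theorem gens_gen [NeZero N] : Subgroup.closure ((gens N d : Finset (Gr N)) : Set (Gr N)) = ⊤ := by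
  rw [eq_top_iff]
  rintro g -
  have h1 : (Multiplicative.ofAdd ((1 : ℤ), (0 : ZMod N)) : Gr N) ∈
      Subgroup.closure ((gens N d : Finset (Gr N)) : Set (Gr N)) :=
    Subgroup.subset_closure (mem_gens.2 (Or.inl rfl))
  have h2 : (Multiplicative.ofAdd ((1 : ℤ), (1 : ZMod N)) : Gr N) ∈
      Subgroup.closure ((gens N d : Finset (Gr N)) : Set (Gr N)) :=
    Subgroup.subset_closure (mem_gens.2 (Or.inr (Or.inl rfl)))
  have e : g = (Multiplicative.ofAdd ((1 : ℤ), (0 : ZMod N)) : Gr N) ^
      ((Multiplicative.toAdd g).1 - ((Multiplicative.toAdd g).2.val : ℤ)) *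
      (Multiplicative.ofAdd ((1 : ℤ), (1 : ZMod N)) : Gr N) ^
        ((Multiplicative.toAdd g).2.val : ℤ) := by
    apply Multiplicative.toAdd.injective
    rw [toAdd_mul, toAdd_zpow, toAdd_zpow, toAdd_ofAdd, toAdd_ofAdd]
    ext
    · simp
    · simp
  rw [e]
  exact mul_mem (zpow_mem h1 _) (zpow_mem h2 _)

theorem rep_wl [NeZero N] (g : Gr N) : Rep N d (wordLength (gens N d) g) g :=
  wl_rec gens_gen rep_zero rep_step g

theorem abs_le_wl [NeZero N] (g : Gr N) :
    |(Multiplicative.toAdd g).1| ≤ wordLength (gens N d) g := by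
  obtain ⟨p, q, r, u, w, h1, h2, h3, h4, h5, h6, h7⟩ := rep_wl (d := d) g
  rw [h6, abs_le]
  omega

/-- Elements of large height. -/
theorem wl_of_height [NeZero N] (g : Gr N) (h : (N : ℤ) ≤ |(Multiplicative.toAdd g).1|) :
    (wordLength (gens N d) g : ℤ) ≤ |(Multiplicative.toAdd g).1| := by
  have key : ∀ (k : ℕ) (f : ZMod N), N ≤ k →
      wordLength (gens N d) (Multiplicative.ofAdd ((k : ℤ), f) : Gr N) ≤ k := by
    intro k f hk
    have hf : f.val < N := ZMod.val_lt f
    have e : (Multiplicative.ofAdd ((k : ℤ), f) : Gr N) =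
        (Multiplicative.ofAdd ((1 : ℤ), (0 : ZMod N)) : Gr N) ^ (k - f.val) *
        (Multiplicative.ofAdd ((1 : ℤ), (1 : ZMod N)) : Gr N) ^ f.val := by
      apply Multiplicative.toAdd.injective
      rw [toAdd_mul, toAdd_pow, toAdd_pow, toAdd_ofAdd, toAdd_ofAdd, toAdd_ofAdd]
      ext
      · simp [-ZMod.natCast_val]
        omega
      · simp
    rw [e]
    refine (wl_mul gens_gen _ _).trans ?_
    have h1 := wl_pow (gens_gen (N := N) (d := d))
      (s := (Multiplicative.ofAdd ((1 : ℤ), (0 : ZMod N)) : Gr N))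
      (Or.inl (mem_gens.2 (Or.inl rfl))) (k - f.val)
    have h2 := wl_pow (gens_gen (N := N) (d := d))
      (s := (Multiplicative.ofAdd ((1 : ℤ), (1 : ZMod N)) : Gr N))
      (Or.inl (mem_gens.2 (Or.inr (Or.inl rfl)))) f.val
    omega
  rcases le_total 0 (Multiplicative.toAdd g).1 with h0 | h0
  · rw [abs_of_nonneg h0] at h ⊢
    obtain ⟨k, hk⟩ := Int.eq_ofNat_of_zero_le h0
    have e : g = Multiplicative.ofAdd ((k : ℤ), (Multiplicative.toAdd g).2) := by
      apply Multiplicative.toAdd.injective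
      rw [toAdd_ofAdd, ← hk]
    rw [hk] at h ⊢
    have := key k (Multiplicative.toAdd g).2 (by exact_mod_cast h)
    rw [← e] at this
    exact_mod_cast this
  · rw [abs_of_nonpos h0] at h ⊢
    obtain ⟨k, hk⟩ := Int.eq_ofNat_of_zero_le (neg_nonneg.2 h0)
    have e : g⁻¹ = Multiplicative.ofAdd ((k : ℤ), -(Multiplicative.toAdd g).2) := by
      apply Multiplicative.toAdd.injective
      rw [toAdd_ofAdd, ← hk, toAdd_inv]
      rfl
    rw [hk] at h ⊢
    have := key k (-(Multiplicative.toAdd g).2) (by exact_mod_cast h)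
    rw [← e] at this
    unfold wordLength at this ⊢
    rw [wl_inv] at this
    exact_mod_cast this

theorem pi_height {G : Type} [Group G] {S : Finset G} {π : ℕ → G}
    (h : ∀ i, wordLength S (π i) < wordLength S (π (i + 1))) (i : ℕ) :
    wordLength S (π 0) + i ≤ wordLength S (π i) := by
  induction i with
  | zero => simp
  | succ i ih => have := h i; omega

theorem adj_height {a b : Gr N} (h : (mulCayley ((gens N d : Finset (Gr N)) : Set (Gr N))).Adj a b) :
    |(Multiplicative.toAdd b).1| ≤ |(Multiplicative.toAdd a).1| + 1 := by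
  have h2 := (cadj.1 h).2
  obtain ⟨s, hs⟩ : ∃ s, s = a⁻¹ * b := ⟨_, rfl⟩
  have hb : b = a * s := by rw [hs]; group
  rw [← hs] at h2
  have h3 : |(Multiplicative.toAdd s).1| ≤ 1 := by
    rw [mem_gens, mem_gens] at h2
    rcases h2 with (rfl | rfl | rfl) | (h | h | h)
    · simp
    · simp
    · simp
    · rw [← inv_inv s, h]; simp
    · rw [← inv_inv s, h]; simp
    · rw [← inv_inv s, h]; simp
  rw [hb, toAdd_mul, Prod.fst_add]
  exact (abs_add_le _ _).trans (by omega)

/-- A strictly increasing path to infinity can only start at an element whose length is at most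
its height. -/
theorem height_of_straight [NeZero N] {y : Gr N} (h : StraightToInfinity (gens N d) y) :
    (wordLength (gens N d) y : ℤ) ≤ |(Multiplicative.toAdd y).1| := by
  obtain ⟨π, h0, hπ⟩ := h
  have h1 := pi_height (fun i => (hπ i).2)
  rw [h0] at h1
  have h2 : ∀ i, |(Multiplicative.toAdd (π i)).1| ≤ |(Multiplicative.toAdd y).1| + i := by
    intro i
    induction i with
    | zero => rw [h0]; simp
    | succ i ih =>
      have := adj_height (hπ i).1
      push_cast
      omega
  -- a bound for the lengths of the elements of small height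
  have hfin : {g : Gr N | |(Multiplicative.toAdd g).1| < N}.Finite := by
    have hA : ((Set.Ioo (-(N : ℤ)) N) ×ˢ (Set.univ : Set (ZMod N))).Finite :=
      (Set.finite_Ioo _ _).prod Set.finite_univ
    refine (hA.image Multiplicative.ofAdd).subset ?_
    intro g hg
    refine ⟨Multiplicative.toAdd g, ?_, rfl⟩
    rw [Set.mem_prod]
    exact ⟨by simpa [abs_lt] using hg, trivial⟩
  obtain ⟨L, hL⟩ := (hfin.image (wordLength (gens N d))).bddAbove
  have h3 := h1 (L + 1)
  have h4 : (N : ℤ) ≤ |(Multiplicative.toAdd (π (L + 1))).1| := by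
    by_contra hlt
    have := hL ⟨π (L + 1), not_le.1 hlt, rfl⟩
    omega
  have h5 := wl_of_height (d := d) _ h4
  have h6 := h2 (L + 1)
  push_cast at h6
  omega

/-- The element `(0, n d)`. -/
def elt (N d n : ℕ) : Gr N := Multiplicative.ofAdd (0, ((n * d : ℕ) : ZMod N))

theorem key (n p r : ℕ) (u w : ℤ) (h1 : 2 * p + r ≤ n) (h2 : |u| ≤ 2 * p) (h3 : |w| ≤ r)
    (h : (((n * (2 * n + 1) : ℕ) : ℤ) : ZMod ((2 * n + 1) * (2 * n + 1))) =
      ((u + ((2 * n + 1 : ℕ) : ℤ) * w : ℤ) : ZMod ((2 * n + 1) * (2 * n + 1)))) :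
    p = 0 ∧ r = n := by
  rw [ZMod.intCast_eq_intCast_iff] at h
  obtain ⟨c, hc⟩ := (Int.modEq_iff_dvd.1 h)
  push_cast at hc
  rw [abs_le] at h2 h3
  obtain ⟨h2a, h2b⟩ := h2
  obtain ⟨h3a, h3b⟩ := h3
  have hp : (2 * p + r : ℤ) ≤ n := by exact_mod_cast h1
  have hp0 : (0 : ℤ) ≤ p := Int.natCast_nonneg _
  have hr0 : (0 : ℤ) ≤ r := Int.natCast_nonneg _
  have hn0 : (0 : ℤ) ≤ n := Int.natCast_nonneg _
  -- `u = (2n+1) ((2n+1) c + n - w)`
  obtain ⟨m, hm⟩ : ∃ m : ℤ, m = (2 * n + 1) * c + n - w := ⟨_, rfl⟩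
  have hu : u = (2 * n + 1) * m := by rw [hm]; linarith
  have hm0 : m = 0 := by
    by_contra hne
    rcases lt_or_gt_of_ne hne with hlt | hgt
    · have : m ≤ -1 := by omega
      have : (2 * (n : ℤ) + 1) * m ≤ (2 * n + 1) * (-1) := by
        apply mul_le_mul_of_nonneg_left this; omega
      omega
    · have : 1 ≤ m := by omega
      have : (2 * (n : ℤ) + 1) * 1 ≤ (2 * n + 1) * m := by
        apply mul_le_mul_of_nonneg_left this; omega
      omega
  have hw : w - n = (2 * n + 1) * c := by linarith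
  have hc0 : c = 0 := by
    by_contra hne
    rcases lt_or_gt_of_ne hne with hlt | hgt
    · have : c ≤ -1 := by omega
      have : (2 * (n : ℤ) + 1) * c ≤ (2 * n + 1) * (-1) := by
        apply mul_le_mul_of_nonneg_left this; omega
      omega
    · have : 1 ≤ c := by omega
      have : (2 * (n : ℤ) + 1) * 1 ≤ (2 * n + 1) * c := by
        apply mul_le_mul_of_nonneg_left this; omega
      omega
  rw [hc0] at hw
  omega

end example_

/-- For every `n` there are an infinite group `G` (namely `ℤ × ℤ/N` for a suitable `N`), a finite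
generating set `S` of `G` and an element `x` of length `n` whose shadow has depth exactly `n`. -/
theorem result : ∀ n : ℕ, ∃ (G : Type) (_ : Group G) (S : Finset G) (x : G),
    Infinite G ∧ Subgroup.closure (S : Set G) = ⊤ ∧ wordLength S x = n ∧ shadowDepth S x = n := by
  intro n
  obtain ⟨d, hd⟩ : ∃ d, d = 2 * n + 1 := ⟨_, rfl⟩
  obtain ⟨N, hN⟩ : ∃ N, N = d * d := ⟨_, rfl⟩
  have : NeZero N := ⟨by subst hN hd; positivity⟩
  have hgen := gens_gen (N := N) (d := d)
  -- representations of the element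
  have hrep : ∀ (p q r : ℕ) (u w : ℤ), p + q + r ≤ n → |u| ≤ p + q → |w| ≤ r → (p : ℤ) - q = 0 →
      (((n * d : ℕ) : ℤ) : ZMod N) = ((u + d * w : ℤ) : ZMod N) → p = 0 ∧ q = 0 ∧ r = n := by
    intro p q r u w h1 h2 h3 h4 h5
    have hpq : p = q := by omega
    subst hpq hN hd
    have := key n p r u w (by omega) (by omega) h3 (by exact_mod_cast h5)
    omega
  have hx1 : (Multiplicative.toAdd (elt N d n)).1 = 0 := rfl
  have hx2 : (Multiplicative.toAdd (elt N d n)).2 = (((n * d : ℕ) : ℤ) : ZMod N) := by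
    unfold elt
    rw [toAdd_ofAdd]
    push_cast
    rfl
  have hlen : wordLength (gens N d) (elt N d n) = n := by
    refine le_antisymm ?_ ?_
    · have e : elt N d n = (Multiplicative.ofAdd ((0 : ℤ), (d : ZMod N)) : Gr N) ^ n := by
        apply Multiplicative.toAdd.injective
        rw [toAdd_pow, toAdd_ofAdd]
        ext
        · simp [elt]
        · simp [elt]
      rw [e]
      exact wl_pow hgen (Or.inl (mem_gens.2 (Or.inr (Or.inr rfl)))) n
    · by_contra hlt
      obtain ⟨p, q, r, u, w, h1, h2, h3, h4, h5, h6, h7⟩ := rep_wl (d := d) (elt N d n)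
      rw [hx1] at h6
      rw [hx2] at h7
      have := hrep p q r u w (by omega) (abs_le.2 (by omega)) (abs_le.2 (by omega)) h6.symm h7
      omega
  refine ⟨Gr N, inferInstance, gens N d, elt N d n, ?_, hgen, hlen, ?_⟩
  · refine Infinite.of_injective (fun k : ℤ => (Multiplicative.ofAdd (k, (0 : ZMod N)) : Gr N)) ?_
    intro a b h
    have := congrArg (fun g : Gr N => (Multiplicative.toAdd g).1) h
    simpa using this
  -- the identity is the start of a strictly increasing path to infinity
  have hone : StraightToInfinity (gens N d) (1 : Gr N) := by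
    have hl : ∀ i : ℕ, wordLength (gens N d)
        ((Multiplicative.ofAdd ((1 : ℤ), (0 : ZMod N)) : Gr N) ^ i) = i := by
      intro i
      refine le_antisymm (wl_pow hgen (Or.inl (mem_gens.2 (Or.inl rfl))) i) ?_
      have := abs_le_wl (d := d) ((Multiplicative.ofAdd ((1 : ℤ), (0 : ZMod N)) : Gr N) ^ i)
      rw [toAdd_pow, toAdd_ofAdd] at this
      simpa using this
    refine ⟨fun i => (Multiplicative.ofAdd ((1 : ℤ), (0 : ZMod N)) : Gr N) ^ i, pow_zero _,
      fun i => ⟨?_, ?_⟩⟩
    · show (mulCayley ((gens N d : Finset (Gr N)) : Set (Gr N))).Adj _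
        ((Multiplicative.ofAdd ((1 : ℤ), (0 : ZMod N)) : Gr N) ^ (i + 1))
      rw [pow_succ]
      refine cadj_mul (Or.inl (mem_gens.2 (Or.inl rfl))) ?_
      intro h
      have := congrArg (fun g : Gr N => (Multiplicative.toAdd g).1) h
      simp at this
    · show wordLength _ _ < wordLength _ _
      rw [hl, hl]
      omega
  have hmem : n ∈ {k : ℕ | ∃ y : Gr N, wordLength (gens N d) y + k =
      wordLength (gens N d) (elt N d n) ∧ StraightToInfinity (gens N d) y ∧
        OnGeodesic (gens N d) (elt N d n) y} := by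
    refine ⟨1, ?_, hone, ?_⟩
    · rw [hlen]
      unfold wordLength
      rw [dist_self, zero_add]
    · obtain ⟨p, hp⟩ := (cay_connected hgen).exists_walk_length_eq_dist 1 (elt N d n)
      exact ⟨p, hp, p.start_mem_support⟩
  refine le_antisymm (Nat.sInf_le hmem) ?_
  refine le_csInf ⟨n, hmem⟩ ?_
  rintro k ⟨y, hy1, hy2, p, hp, hyp⟩
  rw [hlen] at hy1
  have hyh := height_of_straight hy2
  -- the two halves of the geodesic
  have hsplit : wordLength (gens N d) y + wordLength (gens N d) (y⁻¹ * elt N d n) ≤ n := by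
    have h1 : (p.takeUntil y hyp).length + (p.dropUntil y hyp).length = p.length := by
      rw [← Walk.length_append, Walk.take_spec]
    have h2 := dist_le (p.takeUntil y hyp)
    have h3 := dist_le (p.dropUntil y hyp)
    rw [dist_eq_wl] at h3
    unfold wordLength at hp ⊢
    unfold wordLength at hlen
    omega
  obtain ⟨p, q, r, u, w, h1, h2, h3, h4, h5, h6, h7⟩ := rep_wl (d := d) y
  obtain ⟨p', q', r', u', w', h1', h2', h3', h4', h5', h6', h7'⟩ :=
    rep_wl (d := d) (y⁻¹ * elt N d n)
  rw [toAdd_mul, toAdd_inv, Prod.fst_add, Prod.fst_neg, hx1] at h6'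
  rw [toAdd_mul, toAdd_inv, Prod.snd_add, Prod.snd_neg, hx2, h7] at h7'
  have h8 := hrep (p + p') (q + q') (r + r') (u + u') (w + w') (by omega)
    (abs_le.2 (by push_cast; omega)) (abs_le.2 (by push_cast; omega)) (by push_cast; omega) (by
      have : (((n * d : ℕ) : ℤ) : ZMod N) = ((u + d * w : ℤ) : ZMod N) +
        (-((u + d * w : ℤ) : ZMod N) + (((n * d : ℕ) : ℤ) : ZMod N)) := by ring
      rw [this, h7']
      push_cast
      ring)
  have h9 : wordLength (gens N d) y = 0 := by
    have hp0 : p = 0 := by omega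
    have hq0 : q = 0 := by omega
    rw [h6, hp0, hq0] at hyh
    simp at hyh
    exact_mod_cast hyh
  omega

end Pool.Agent.Results.MP_ea4c65_al.MaximalShadowDepth
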